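import Pool.Agent.N596.SC.Pomp
import Pool.Agent.N229.SC.A1
import Pool.Agent.N229.SC.A2
import Pool.Agent.N229.SC.A3
import Pool.Agent.N229.SC.AB
import Pool.Agent.N229.SC.B1
import Pool.Agent.N229.SC.B2
import Pool.Agent.N229.SC.B3
import Pool.Agent.N229.SC.SELF
import Pool.Agent.N229.SC.CTR
import Pool.Agent.N229.SC.LX
import Pool.Agent.N229.SC.FIX
import Pool.Agent.N229.SC.HG
import Pool.Agent.N229.SC.VG
import Pool.Agent.N229.SC.YG
import Pool.Agent.N229.SC.RV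
import Pool.Agent.N229.SC.GG
import Pool.Agent.N229.SC.SGN
import Pool.Agent.N229.SC.EXI
import Pool.Agent.N229.SC.N1
import Pool.Agent.N229.SC.N2
import Pool.Agent.N229.SC.N3
import Pool.Agent.N229.SC.NUM
import Pool.Agent.N229.SC.EH
import Pool.Agent.N229.SC.EV
import Pool.Agent.N229.SC.FN1
import Pool.Agent.N229.SC.FN2
import Pool.Agent.N229.SC.FN3
import Pool.Agent.N229.SC.FN4
import Pool.Agent.N229.SC.FN5
import Pool.Agent.N229.SC.PSM
import Pool.Agent.N229.SC.PDE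
import Pool.Agent.N229.SC.INJ
import Pool.Agent.N229.SC.TOP
import Pool.Agent.N229.SC.NB
import Pool.Agent.N229.SC.DIV
import Pool.Agent.N229.SC.CV
import Pool.Agent.N229.SC.WK1
import Pool.Agent.N229.SC.WK2
import Pool.Agent.N229.SC.WK3

/-!
Project SC, page MP_8f331d_an: assembly for the Pompeiu property in the plane.
-/

set_option autoImplicit false

open Set Filter Topology MeasureTheory

namespace Pool.Agent.N596.SC

open Pool.Agent.N229.SC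

/-- the classical solution of the overdetermined problem -/
theorem classical : ∃ (ρ r r' c : ℝ) (f : ℂ → ℂ) (U : ℂ → ℝ) (S : ℂ → ℂ), Conf ρ r f ∧ Nd f ∧
    1 < r' ∧ r' ≤ r ∧ Cl r' c f U S := by
  have hA1 : S_A1 := proof_A1
  have hA2 : S_A2 := proof_A2 hA1
  have hA3 : S_A3 := proof_A3 hA1 hA2
  have hAB : S_AB := proof_AB
  have hB1 : S_B1 := proof_B1 hA1 hA2 hA3
  have hB2 : S_B2 := proof_B2 hA1 hA2 hA3 hAB hB1
  have hB3 : S_B3 := proof_B3 hA1 hA2 hA3 hAB hB1 hB2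
  have hSELF : S_SELF := proof_SELF hA1 hA2 hA3 hAB hB1 hB2
  have hCTR : S_CTR := proof_CTR hA1 hA2 hA3 hAB hB1 hB2 hB3
  have hLX : S_LX := proof_LX hA1 hA2 hA3 hAB hB1 hB2
  have hFIX : S_FIX := proof_FIX hA1 hA2 hSELF hCTR hLX
  have hHG : S_HG := proof_HG hA1 hA2 hA3 hAB hB1 hB2
  have hVG : S_VG := proof_VG hA1 hA2 hA3 hAB hB1 hB2
  have hYG : S_YG := proof_YG hA1 hA2 hA3 hAB hB1 hB2
  have hRV : S_RV := proof_RV hA1 hA2 hA3 hAB hB1 hB2
  have hGG : S_GG := proof_GG hA1 hA2 hA3 hAB hB1 hB2 hRV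
  have hSGN : S_SGN := proof_SGN hA1 hA2 hAB hHG hVG hYG hRV hGG
  have hEXI : S_EXI := proof_EXI hA1 hA2 hFIX hHG hSGN
  have hNUM : S_NUM := proof_NUM proof_N1 proof_N2 proof_N3
  have hEH : S_EH := proof_EH hA1 hA2
  have hEV : S_EV := proof_EV hA1 hA2 hA3
  have hFN1 : S_FN1 := proof_FN1 hA1 hA2 hA3 hB1 hEH hEV
  have hFN2 : S_FN2 := proof_FN2 hA1 hA2 hA3 hAB hB1 hB2 hEH
  have hFN3 : S_FN3 := proof_FN3 hA1 hA2 hA3 hAB hB1 hB2 hEH
  have hFN4 : S_FN4 := proof_FN4 hA1 hA2 hA3 hAB hB1 hB2 hEH hEV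
  have hFN5 : S_FN5 := proof_FN5 hA1 hA2 hA3 hAB hB1 hB2 hEH hEV
  have hPDE : S_PDE := proof_PDE proof_PSM
  obtain ⟨P, hG, hbd⟩ := hNUM
  obtain ⟨X, h, v, y, hX, hX', hsol, hO, hh⟩ := hEXI P hG
  have hF : Full P X h v y := ⟨hG, hbd, hX, hX', hsol, hO, hh⟩
  obtain ⟨hconf, hnd⟩ := hFN1 P X h v y hF
  obtain ⟨hQd, hQb⟩ := hFN2 P X h v y hF
  have hStr : Str P.ρ (rF P) (fF P h) (QF P X h v y) :=
    ⟨hconf, hQd, hQb, hFN3 P X h v y hF, hFN4 P X h v y hF, hFN5 P X h v y hF⟩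
  obtain ⟨r', c, U, S, hr1, hr2, hCl⟩ := hPDE _ _ _ _ hStr
  exact ⟨P.ρ, rF P, r', c, fF P h, U, S, hconf, hnd, hr1, hr2, hCl⟩

/-- **The Pompeiu problem in the plane has a negative answer.** -/
theorem plane : ∃ D : Set ℂ, IsOpen D ∧ Bornology.IsBounded D ∧ IsConnected D ∧
    SimplyConnectedSpace D ∧ Nonempty (frontier D ≃ₜ Metric.sphere (0 : ℂ) 1) ∧
    IsConnected (closure D)ᶜ ∧ ¬ Pompeiu (closure D) ∧
    ∀ (a : ℂ) (s : ℝ), closure D ≠ Metric.closedBall a s := by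
  have hI : S_INJ := proof_INJ
  have hT : S_TOP := proof_TOP hI
  have hN : S_NB := proof_NB hI hT
  have hCV : S_CV := proof_CV hI
  have hDIV : S_DIV := proof_DIV
  exact pompeiu hI hT hN (proof_WK1 hI hT hCV) (proof_WK2 hI hT hCV hDIV)
    (proof_WK3 hI hT hCV hDIV) classical

end Pool.Agent.N596.SC
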