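import Pool.Agent.N229.SC.Stm

/-!
Project SC, page MP_8f331d_an: extension of the conformal map to a homeomorphism of the plane.
-/

set_option autoImplicit false

open Set Filter Topology MeasureTheory

namespace Pool.Agent.N596.SC

open Pool.Agent.N229.SC

/-- a small perturbation of the identity is a homeomorphism -/
theorem homeo_of_small (k : ℂ → ℂ) (hk : ∀ z w, ‖k z - k w‖ ≤ 1 / 5 * ‖z - w‖) :
    ∃ F : ℂ ≃ₜ ℂ, ∀ z, F z = z + k z := by
  have happ : ApproximatesLinearOn (fun z => z + k z)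
      ((ContinuousLinearEquiv.refl ℝ ℂ : ℂ ≃L[ℝ] ℂ) : ℂ →L[ℝ] ℂ) univ (1 / 5 : NNReal) := by
    rw [ApproximatesLinearOn.approximatesLinearOn_iff_lipschitzOnWith]
    refine LipschitzOnWith.of_dist_le_mul fun x _ y _ => ?_
    have h := hk x y
    simp only [dist_eq_norm, Pi.sub_apply, ContinuousLinearEquiv.coe_coe,
      ContinuousLinearEquiv.coe_refl', id]
    have e : x + k x - x - (y + k y - y) = k x - k y := by ring
    rw [e]
    simpa using h
  have hc : Subsingleton ℂ ∨ (1 / 5 : NNReal) <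
      ‖(((ContinuousLinearEquiv.refl ℝ ℂ : ℂ ≃L[ℝ] ℂ)).symm : ℂ →L[ℝ] ℂ)‖₊⁻¹ := by
    right
    have e : (((ContinuousLinearEquiv.refl ℝ ℂ : ℂ ≃L[ℝ] ℂ)).symm : ℂ →L[ℝ] ℂ) =
        ContinuousLinearMap.id ℝ ℂ := rfl
    rw [e]
    have e2 : ‖ContinuousLinearMap.id ℝ ℂ‖₊ = 1 := by
      ext
      simp
    rw [e2, inv_one]
    rw [div_lt_one (by norm_num)]
    norm_num
  exact ⟨happ.toHomeomorph _ hc, fun z => rfl⟩

theorem extend {ρ r : ℝ} {f : ℂ → ℂ} (hρ : 0 < ρ)
    (h : ∀ z ∈ Metric.ball (0 : ℂ) r, ∀ w ∈ Metric.ball (0 : ℂ) r,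
      ‖f z - f w - ρ * (z - w)‖ ≤ ρ / 10 * ‖z - w‖) :
    ∃ F : ℂ ≃ₜ ℂ, ∀ z ∈ Metric.ball (0 : ℂ) r, F z = f z := by
  have hρ' : (ρ : ℂ) ≠ 0 := by exact_mod_cast hρ.ne'
  have hg : ∀ z ∈ Metric.ball (0 : ℂ) r, ∀ w ∈ Metric.ball (0 : ℂ) r,
      ‖(f z / ρ - z) - (f w / ρ - w)‖ ≤ 1 / 10 * ‖z - w‖ := by
    intro z hz w hw
    have h1 := h z hz w hw
    have e : (f z / ρ - z) - (f w / ρ - w) = (f z - f w - ρ * (z - w)) / ρ := by
      field_simp
      ring
    rw [e, norm_div, Complex.norm_real, Real.norm_eq_abs, abs_of_pos hρ, div_le_iff₀ hρ]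
    linarith
  have hre : LipschitzOnWith (1 / 10 : NNReal) (fun z => (f z / ρ - z).re)
      (Metric.ball (0 : ℂ) r) := by
    refine LipschitzOnWith.of_dist_le_mul fun x hx y hy => ?_
    rw [Real.dist_eq, dist_eq_norm, ← Complex.sub_re]
    refine (Complex.abs_re_le_norm _).trans ?_
    simpa using hg x hx y hy
  have him : LipschitzOnWith (1 / 10 : NNReal) (fun z => (f z / ρ - z).im)
      (Metric.ball (0 : ℂ) r) := by
    refine LipschitzOnWith.of_dist_le_mul fun x hx y hy => ?_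
    rw [Real.dist_eq, dist_eq_norm, ← Complex.sub_im]
    refine (Complex.abs_im_le_norm _).trans ?_
    simpa using hg x hx y hy
  obtain ⟨g1, hg1, e1⟩ := hre.extend_real
  obtain ⟨g2, hg2, e2⟩ := him.extend_real
  obtain ⟨F, hF⟩ := homeo_of_small (fun z => (g1 z : ℂ) + g2 z * Complex.I) (by
    intro z w
    have h1 := hg1.dist_le_mul z w
    have h2 := hg2.dist_le_mul z w
    rw [Real.dist_eq, dist_eq_norm] at h1 h2
    have e : ((g1 z : ℂ) + g2 z * Complex.I) - ((g1 w : ℂ) + g2 w * Complex.I) =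
        ((g1 z - g1 w : ℝ) : ℂ) + ((g2 z - g2 w : ℝ) : ℂ) * Complex.I := by
      push_cast
      ring
    rw [e]
    refine (norm_add_le _ _).trans ?_
    rw [norm_mul, Complex.norm_I, mul_one, Complex.norm_real, Complex.norm_real,
      Real.norm_eq_abs, Real.norm_eq_abs]
    have e3 : ((1 / 10 : NNReal) : ℝ) = 1 / 10 := by push_cast; norm_num
    rw [e3] at h1 h2
    linarith)
  refine ⟨F.trans (Homeomorph.mulLeft₀ (ρ : ℂ) hρ'), fun z hz => ?_⟩
  rw [Homeomorph.trans_apply, hF, Homeomorph.coe_mulLeft₀]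
  have h1 := e1 hz
  have h2 := e2 hz
  simp only at h1 h2
  rw [← h1, ← h2, Complex.re_add_im]
  field_simp
  ring

/-- the complement of a closed disc is connected -/
theorem conn_compl_closedBall : IsConnected (Metric.closedBall (0 : ℂ) 1)ᶜ := by
  have e : (Metric.closedBall (0 : ℂ) 1)ᶜ = Complex.exp '' {w : ℂ | 0 < w.re} := by
    ext z
    rw [mem_compl_iff, mem_closedBall_zero_iff, not_le]
    constructor
    · intro h
      have hz : z ≠ 0 := by
        intro h0
        rw [h0, norm_zero] at h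
        linarith
      refine ⟨Complex.log z, ?_, Complex.exp_log hz⟩
      show 0 < (Complex.log z).re
      rw [Complex.log_re]
      exact Real.log_pos h
    · rintro ⟨w, hw, rfl⟩
      rw [Complex.norm_exp]
      exact Real.one_lt_exp_iff.2 hw
  rw [e]
  refine IsConnected.image ⟨⟨1, by simp⟩, ?_⟩ _ Complex.continuous_exp.continuousOn
  exact (convex_halfSpace_re_gt 0).isPreconnected

/-- topology of the domain -/
theorem top {ρ r : ℝ} {f : ℂ → ℂ} (hf : Conf ρ r f) (hI : S_INJ) :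
    closure (Om f) = f '' Metric.closedBall 0 1 ∧ interior (closure (Om f)) = Om f ∧
    IsConnected (closure (Om f))ᶜ ∧ IsCompact (closure (Om f)) := by
  obtain ⟨F, hF⟩ := extend hf.rho_pos (hI ρ r f hf).1
  have hsub : Metric.closedBall (0 : ℂ) 1 ⊆ Metric.ball 0 r :=
    Metric.closedBall_subset_ball hf.r_gt
  have e1 : Om f = F '' Metric.ball 0 1 := by
    unfold Om
    exact image_congr fun z hz => (hF z (hsub (Metric.ball_subset_closedBall hz))).symm
  have e2 : f '' Metric.closedBall 0 1 = F '' Metric.closedBall 0 1 :=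
    image_congr fun z hz => (hF z (hsub hz)).symm
  have e3 : closure (Om f) = F '' Metric.closedBall 0 1 := by
    rw [e1, ← F.image_closure, closure_ball _ one_ne_zero]
  refine ⟨by rw [e3, e2], ?_, ?_, ?_⟩
  · rw [e3, ← F.image_interior, interior_closedBall _ one_ne_zero, e1]
  · rw [e3, ← F.image_compl]
    exact conn_compl_closedBall.image _ F.continuous.continuousOn
  · rw [e3]
    exact (isCompact_closedBall _ _).image F.continuous

/-- the boundary is a null set -/
theorem null {ρ r : ℝ} {f : ℂ → ℂ} (hf : Conf ρ r f) (hI : S_INJ) :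
    (closure (Om f) : Set ℂ) =ᵐ[volume] Om f := by
  have h1 := (top hf hI).1
  have hsub : Metric.closedBall (0 : ℂ) 1 ⊆ Metric.ball 0 r :=
    Metric.closedBall_subset_ball hf.r_gt
  have h2 : closure (Om f) = Om f ∪ f '' Metric.sphere 0 1 := by
    rw [h1]
    unfold Om
    rw [← image_union, Metric.ball_union_sphere]
  have h3 : volume (f '' Metric.sphere 0 1) = 0 := by
    refine addHaar_image_eq_zero_of_differentiableOn_of_addHaar_eq_zero volume ?_ ?_
    · have h4 : DifferentiableOn ℝ f (Metric.ball 0 r) := hf.f_diff.restrictScalars ℝ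
      exact h4.mono (Metric.sphere_subset_closedBall.trans hsub)
    · exact Measure.addHaar_sphere _ _ _
  rw [h2]
  exact union_ae_eq_left_of_ae_eq_empty (ae_eq_empty.2 h3)

/-- the closure of the domain is not a disc -/
theorem not_disc {ρ r : ℝ} {f : ℂ → ℂ} (hf : Conf ρ r f) (hn : Nd f) (hI : S_INJ) (hN : S_NB)
    (a : ℂ) (s : ℝ) : closure (Om f) ≠ Metric.closedBall a s := by
  intro h
  have h1 := (top hf hI).2.1
  rw [h, interior_closedBall'] at h1
  exact hN ρ r f hf hn a s h1.symm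

end Pool.Agent.N596.SC
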