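import Pool.Agent.N596.SC.Asm

/-!
Project SC, page MP_8f331d_an: the final statement.
-/

set_option autoImplicit false

open Set Filter Topology MeasureTheory

namespace Pool.Agent.N596.SC

open Pool.Agent.N229.SC

/-- **The Pompeiu problem in the plane**, with all the properties of the domain. -/
theorem plane' : ∃ (f : ℂ → ℂ) (r : ℝ), 1 < r ∧ DifferentiableOn ℂ f (Metric.ball 0 r) ∧
    InjOn f (Metric.ball 0 r) ∧ IsOpen (f '' Metric.ball 0 1) ∧
    Bornology.IsBounded (f '' Metric.ball 0 1) ∧ IsConnected (f '' Metric.ball 0 1) ∧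
    IsConnected (closure (f '' Metric.ball 0 1))ᶜ ∧
    (∀ a b : ℂ, ‖a‖ = 1 →
      ∫ z in (fun z => a * z + b) '' closure (f '' Metric.ball 0 1), Real.cos z.re = 0) ∧
    ¬ Pompeiu (closure (f '' Metric.ball 0 1)) ∧
    ∀ (a : ℂ) (s : ℝ), closure (f '' Metric.ball 0 1) ≠ Metric.closedBall a s := by
  have hI : S_INJ := proof_INJ
  have hT : S_TOP := proof_TOP hI
  have hN : S_NB := proof_NB hI hT
  have hCV : S_CV := proof_CV hI
  have hDIV : S_DIV := proof_DIV
  have hW1 : S_WK1 := proof_WK1 hI hT hCV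
  have hW2 : S_WK2 := proof_WK2 hI hT hCV hDIV
  have hW3 : S_WK3 := proof_WK3 hI hT hCV hDIV
  obtain ⟨ρ, r, r', c, f, U, S, hf, hn, hr, hr', hCl⟩ := classical
  obtain ⟨t1, t2, t3, t4, -, t5⟩ := hT ρ r f hf
  obtain ⟨w1, w2, -⟩ := hW1 ρ r r' c f U S hf hr hr' hCl
  have hz : ∀ a b : ℂ, ‖a‖ = 1 →
      ∫ z in (fun z => a * z + b) '' closure (Om f), Real.cos z.re = 0 := by
    intro a b ha
    rw [rigid a b ha, setIntegral_congr_set (null hf hI)]
    exact fourier t1 t2 hCl.c_ne w1 w2 (hW2 ρ r r' c f U S hf hr hr' hCl)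
      (hW3 ρ r r' c f U S hf hr hr' hCl) a b ha
  refine ⟨f, r, hf.r_gt, hf.f_diff, (hI ρ r f hf).2, t1, t2, t3, (top hf hI).2.2.1, hz, ?_,
    not_disc hf hn hI hN⟩
  intro hP
  have h1 := hP (fun z => Real.cos z.re)
    (Real.continuous_cos.comp Complex.continuous_re).locallyIntegrable hz
  have h2 : (fun z : ℂ => Real.cos z.re) = 0 :=
    ((Real.continuous_cos.comp Complex.continuous_re).ae_eq_iff_eq volume continuous_zero).1 h1
  have h3 := congrFun h2 0
  simp at h3

end Pool.Agent.N596.SC
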