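import Pool.Agent.N596.SC.Ext

/-!
Project SC, page MP_8f331d_an: the domain fails the Pompeiu property.
-/

set_option autoImplicit false

open Set Filter Topology MeasureTheory

namespace Pool.Agent.N596.SC

open Pool.Agent.N229.SC

/-- The Pompeiu property of a set `K` of the Euclidean plane `ℂ`: a locally integrable function
whose integrals over all the images of `K` under the rigid motions `z ↦ a z + b`, `|a| = 1`, are zero
is zero almost everywhere. -/
def Pompeiu (K : Set ℂ) : Prop :=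
  ∀ ψ : ℂ → ℝ, LocallyIntegrable ψ volume →
    (∀ a b : ℂ, ‖a‖ = 1 → ∫ z in (fun z => a * z + b) '' K, ψ z = 0) → ψ =ᵐ[volume] 0

section
variable {Ω : Set ℂ} {c : ℝ} {u : ℂ → ℝ} {G : ℂ → ℂ}

/-- the cutoff -/
theorem cutoff (hΩ : IsOpen Ω) (hb : Bornology.IsBounded Ω) (θ : ℂ → ℝ) (hθ : ContDiff ℝ 1 θ) :
    ∃ φ : ℂ → ℝ, ContDiff ℝ 1 φ ∧ HasCompactSupport φ ∧ (∀ x ∈ Ω, φ x = θ x) ∧
      ∀ x ∈ Ω, fderiv ℝ φ x = fderiv ℝ θ x := by
  obtain ⟨R, hR0, hR⟩ := hb.subset_ball_lt 0 0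
  let χ : ContDiffBump (0 : ℂ) := ⟨R, R + 1, hR0, by linarith⟩
  have h1 : ∀ x ∈ Ω, χ x * θ x = θ x := by
    intro x hx
    rw [χ.one_of_mem_closedBall (Metric.ball_subset_closedBall (hR hx)), one_mul]
  refine ⟨fun x => χ x * θ x, χ.contDiff.mul hθ, χ.hasCompactSupport.mul_right, h1, ?_⟩
  intro x hx
  refine Filter.EventuallyEq.fderiv_eq ?_
  filter_upwards [hΩ.mem_nhds hx] with y hy using h1 y hy

theorem id1 (hΩ : IsOpen Ω) (hb : Bornology.IsBounded Ω)
    (h1 : ∀ φ : ℂ → ℝ, ContDiff ℝ 1 φ → HasCompactSupport φ → ∀ v : ℂ,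
      ∫ x in Ω, (u x - c) * (fderiv ℝ φ x v) = - ∫ x in Ω, @inner ℝ ℂ _ (G x) v * φ x)
    (θ : ℂ → ℝ) (hθ : ContDiff ℝ 1 θ) (v : ℂ) :
    ∫ x in Ω, (u x - c) * (fderiv ℝ θ x v) = - ∫ x in Ω, @inner ℝ ℂ _ (G x) v * θ x := by
  obtain ⟨φ, h2, h3, h4, h5⟩ := cutoff hΩ hb θ hθ
  have h6 := h1 φ h2 h3 v
  have h7 : ∫ x in Ω, (u x - c) * (fderiv ℝ φ x v) = ∫ x in Ω, (u x - c) * (fderiv ℝ θ x v) :=
    setIntegral_congr_fun hΩ.measurableSet (fun x hx => by simp only [h5 x hx])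
  have h8 : ∫ x in Ω, @inner ℝ ℂ _ (G x) v * φ x = ∫ x in Ω, @inner ℝ ℂ _ (G x) v * θ x :=
    setIntegral_congr_fun hΩ.measurableSet (fun x hx => by simp only [h4 x hx])
  rw [← h7, ← h8, h6]

theorem id2 (hΩ : IsOpen Ω) (hb : Bornology.IsBounded Ω)
    (h2 : ∀ φ : ℂ → ℝ, ContDiff ℝ 1 φ → HasCompactSupport φ →
      ∫ x in Ω, fderiv ℝ φ x (G x) = 1 * ∫ x in Ω, u x * φ x)
    (θ : ℂ → ℝ) (hθ : ContDiff ℝ 1 θ) :
    ∫ x in Ω, fderiv ℝ θ x (G x) = ∫ x in Ω, u x * θ x := by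
  obtain ⟨φ, h3, h4, h5, h6⟩ := cutoff hΩ hb θ hθ
  have h7 := h2 φ h3 h4
  have h8 : ∫ x in Ω, fderiv ℝ φ x (G x) = ∫ x in Ω, fderiv ℝ θ x (G x) :=
    setIntegral_congr_fun hΩ.measurableSet (fun x hx => by simp only [h6 x hx])
  have h9 : ∫ x in Ω, u x * φ x = ∫ x in Ω, u x * θ x :=
    setIntegral_congr_fun hΩ.measurableSet (fun x hx => by simp only [h5 x hx])
  rw [← h8, ← h9, h7, one_mul]

/-- derivative of a plane wave -/
theorem wave_deriv (a b : ℂ) (g g' : ℝ → ℝ) (hg : ∀ t, HasDerivAt g (g' t) t) (x v : ℂ) :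
    fderiv ℝ (fun x : ℂ => g (a * x + b).re) x v = g' (a * x + b).re * (a * v).re := by
  have h1 : HasFDerivAt (fun x : ℂ => (a * x + b).re)
      (Complex.reCLM.comp (ContinuousLinearMap.mul ℝ ℂ a)) x := by
    have h2 : HasFDerivAt (fun x : ℂ => a * x + b) (ContinuousLinearMap.mul ℝ ℂ a) x :=
      ((ContinuousLinearMap.mul ℝ ℂ a).hasFDerivAt).add_const b
    exact Complex.reCLM.hasFDerivAt.comp x h2
  have h3 := (hg (a * x + b).re).comp_hasFDerivAt x h1
  have h4 : fderiv ℝ (fun x : ℂ => g (a * x + b).re) x =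
      g' (a * x + b).re • (Complex.reCLM.comp (ContinuousLinearMap.mul ℝ ℂ a)) := h3.fderiv
  rw [h4]
  simp

theorem memLp_bdd {μ : Measure ℂ} [IsFiniteMeasure μ] (g : ℂ → ℝ) (hg : Continuous g) (C : ℝ)
    (hC : ∀ x, |g x| ≤ C) : MemLp g 2 μ :=
  MemLp.of_bound hg.aestronglyMeasurable C (Eventually.of_forall fun x => by
    rw [Real.norm_eq_abs]
    exact hC x)

/-- the Fourier transform of the domain vanishes on the unit circle -/
theorem fourier (hΩ : IsOpen Ω) (hb : Bornology.IsBounded Ω) (hc : c ≠ 0)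
    (hu : MemLp u 2 (volume.restrict Ω)) (hG : MemLp G 2 (volume.restrict Ω))
    (h1 : ∀ φ : ℂ → ℝ, ContDiff ℝ 1 φ → HasCompactSupport φ → ∀ v : ℂ,
      ∫ x in Ω, (u x - c) * (fderiv ℝ φ x v) = - ∫ x in Ω, @inner ℝ ℂ _ (G x) v * φ x)
    (h2 : ∀ φ : ℂ → ℝ, ContDiff ℝ 1 φ → HasCompactSupport φ →
      ∫ x in Ω, fderiv ℝ φ x (G x) = 1 * ∫ x in Ω, u x * φ x)
    (a b : ℂ) (ha : ‖a‖ = 1) : ∫ x in Ω, Real.cos (a * x + b).re = 0 := by
  have hfin : IsFiniteMeasure (volume.restrict Ω) := ⟨by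
    rw [Measure.restrict_apply_univ]
    exact hb.measure_lt_top⟩
  have hcont : Continuous fun x : ℂ => (a * x + b).re := by fun_prop
  have hsm : ContDiff ℝ 1 fun x : ℂ => (a * x + b).re := by
    have h3 : ContDiff ℝ 1 fun x : ℂ => a * x + b := by fun_prop
    exact Complex.reCLM.contDiff.comp h3
  have hcos : ContDiff ℝ 1 fun x : ℂ => Real.cos (a * x + b).re := Real.contDiff_cos.comp hsm
  have hsin : ContDiff ℝ 1 fun x : ℂ => Real.sin (a * x + b).re := Real.contDiff_sin.comp hsm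
  have hs1 : ContDiff ℝ 1 fun x : ℂ => -a.re * Real.sin (a * x + b).re := contDiff_const.mul hsin
  have hs2 : ContDiff ℝ 1 fun x : ℂ => a.im * Real.sin (a * x + b).re := contDiff_const.mul hsin
  have e1 := id1 hΩ hb h1 _ hs1 1
  have e2 := id1 hΩ hb h1 _ hs2 Complex.I
  have e3 := id2 hΩ hb h2 _ hcos
  have d1 : ∀ x : ℂ, fderiv ℝ (fun x : ℂ => -a.re * Real.sin (a * x + b).re) x 1 =
      -(a.re ^ 2) * Real.cos (a * x + b).re := by
    intro x
    have h := wave_deriv a b (fun t => -a.re * Real.sin t) (fun t => -a.re * Real.cos t)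
      (fun t => (Real.hasDerivAt_sin t).const_mul _) x 1
    rw [h, mul_one]
    ring
  have d2 : ∀ x : ℂ, fderiv ℝ (fun x : ℂ => a.im * Real.sin (a * x + b).re) x Complex.I =
      -(a.im ^ 2) * Real.cos (a * x + b).re := by
    intro x
    have h := wave_deriv a b (fun t => a.im * Real.sin t) (fun t => a.im * Real.cos t)
      (fun t => (Real.hasDerivAt_sin t).const_mul _) x Complex.I
    rw [h]
    simp only [Complex.mul_re, Complex.I_re, Complex.I_im, mul_zero, mul_one, zero_sub]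
    ring
  have d3 : ∀ x v : ℂ, fderiv ℝ (fun x : ℂ => Real.cos (a * x + b).re) x v =
      v.re * (-a.re * Real.sin (a * x + b).re) + v.im * (a.im * Real.sin (a * x + b).re) := by
    intro x v
    have h := wave_deriv a b (fun t => Real.cos t) (fun t => -Real.sin t)
      (fun t => Real.hasDerivAt_cos t) x v
    rw [h]
    simp only [Complex.mul_re]
    ring
  have i1 : ∀ x : ℂ, @inner ℝ ℂ _ (G x) 1 = (G x).re := by
    intro x
    rw [Complex.inner]
    simp
  have i2 : ∀ x : ℂ, @inner ℝ ℂ _ (G x) Complex.I = (G x).im := by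
    intro x
    rw [Complex.inner]
    simp
  simp only [d1, d2, d3, i1, i2] at e1 e2 e3
  -- integrability
  have mG1 : MemLp (fun x => (G x).re) 2 (volume.restrict Ω) := hG.re
  have mG2 : MemLp (fun x => (G x).im) 2 (volume.restrict Ω) := hG.im
  have mc : MemLp (fun x : ℂ => Real.cos (a * x + b).re) 2 (volume.restrict Ω) :=
    memLp_bdd _ (Real.continuous_cos.comp hcont) 1 fun x => Real.abs_cos_le_one _
  have ms1 : MemLp (fun x : ℂ => -a.re * Real.sin (a * x + b).re) 2 (volume.restrict Ω) :=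
    (memLp_bdd _ (Real.continuous_sin.comp hcont) 1 fun x => Real.abs_sin_le_one _).const_mul _
  have ms2 : MemLp (fun x : ℂ => a.im * Real.sin (a * x + b).re) 2 (volume.restrict Ω) :=
    (memLp_bdd _ (Real.continuous_sin.comp hcont) 1 fun x => Real.abs_sin_le_one _).const_mul _
  have j1 : Integrable (fun x : ℂ => (G x).re * (-a.re * Real.sin (a * x + b).re))
      (volume.restrict Ω) := mG1.integrable_mul ms1
  have j2 : Integrable (fun x : ℂ => (G x).im * (a.im * Real.sin (a * x + b).re))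
      (volume.restrict Ω) := mG2.integrable_mul ms2
  have j3 : Integrable (fun x : ℂ => u x * Real.cos (a * x + b).re) (volume.restrict Ω) :=
    hu.integrable_mul mc
  have j4 : Integrable (fun x : ℂ => Real.cos (a * x + b).re) (volume.restrict Ω) :=
    mc.integrable (by norm_num)
  rw [integral_add j1 j2] at e3
  have k1 : ∫ x in Ω, (u x - c) * (-(a.re ^ 2) * Real.cos (a * x + b).re) =
      -(a.re ^ 2) * ((∫ x in Ω, u x * Real.cos (a * x + b).re) -
        c * ∫ x in Ω, Real.cos (a * x + b).re) := by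
    rw [← integral_const_mul c, ← integral_sub j3 (j4.const_mul c), ← integral_const_mul]
    refine integral_congr_ae (Eventually.of_forall fun x => ?_)
    simp only
    ring
  have k2 : ∫ x in Ω, (u x - c) * (-(a.im ^ 2) * Real.cos (a * x + b).re) =
      -(a.im ^ 2) * ((∫ x in Ω, u x * Real.cos (a * x + b).re) -
        c * ∫ x in Ω, Real.cos (a * x + b).re) := by
    rw [← integral_const_mul c, ← integral_sub j3 (j4.const_mul c), ← integral_const_mul]
    refine integral_congr_ae (Eventually.of_forall fun x => ?_)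
    simp only
    ring
  rw [k1] at e1
  rw [k2] at e2
  have hn : a.re ^ 2 + a.im ^ 2 = 1 := by
    have h := Complex.sq_norm a
    rw [ha, Complex.normSq_apply] at h
    nlinarith
  have hfinal : c * ∫ x in Ω, Real.cos (a * x + b).re = 0 := by
    have h : (a.re ^ 2 + a.im ^ 2) * (c * ∫ x in Ω, Real.cos (a * x + b).re) =
        (a.re ^ 2 + a.im ^ 2 - 1) * ∫ x in Ω, u x * Real.cos (a * x + b).re := by
      linarith
    rw [hn] at h
    linarith
  rcases mul_eq_zero.1 hfinal with h | h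
  · exact absurd h hc
  · exact h

end

/-- rigid motions preserve the measure -/
theorem rigid (a b : ℂ) (ha : ‖a‖ = 1) (K : Set ℂ) (ψ : ℂ → ℝ) :
    ∫ z in (fun z => a * z + b) '' K, ψ z = ∫ z in K, ψ (a * z + b) := by
  have h1 : MeasurePreserving (fun z : ℂ => a * z) volume volume := by
    have h := (rotation ⟨a, mem_sphere_zero_iff_norm.2 ha⟩).measurePreserving
    exact h
  have h2 : MeasurePreserving (fun z : ℂ => z + b) volume volume := measurePreserving_add_right _ b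
  have h3 : MeasurePreserving (fun z : ℂ => a * z + b) volume volume := h2.comp h1
  have ha0 : a ≠ 0 := by
    intro h
    rw [h, norm_zero] at ha
    exact zero_ne_one ha
  have h4 : MeasurableEmbedding (fun z : ℂ => a * z + b) :=
    ((Homeomorph.mulLeft₀ a ha0).trans (Homeomorph.addRight b)).measurableEmbedding
  exact h3.setIntegral_image_emb h4 ψ K

/-- **Failure of the Pompeiu property.** -/
theorem pompeiu (hI : S_INJ) (hT : S_TOP) (hN : S_NB) (hW1 : S_WK1) (hW2 : S_WK2) (hW3 : S_WK3)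
    (h : ∃ (ρ r r' c : ℝ) (f : ℂ → ℂ) (U : ℂ → ℝ) (S : ℂ → ℂ), Conf ρ r f ∧ Nd f ∧ 1 < r' ∧
      r' ≤ r ∧ Cl r' c f U S) :
    ∃ D : Set ℂ, IsOpen D ∧ Bornology.IsBounded D ∧ IsConnected D ∧ SimplyConnectedSpace D ∧
      Nonempty (frontier D ≃ₜ Metric.sphere (0 : ℂ) 1) ∧ IsConnected (closure D)ᶜ ∧
      ¬ Pompeiu (closure D) ∧ ∀ (a : ℂ) (s : ℝ), closure D ≠ Metric.closedBall a s := by
  obtain ⟨ρ, r, r', c, f, U, S, hf, hn, hr, hr', hCl⟩ := h
  obtain ⟨t1, t2, t3, t4, -, t5⟩ := hT ρ r f hf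
  obtain ⟨w1, w2, -⟩ := hW1 ρ r r' c f U S hf hr hr' hCl
  refine ⟨Om f, t1, t2, t3, t4, t5, (top hf hI).2.2.1, ?_, not_disc hf hn hI hN⟩
  intro hP
  have h1 := hP (fun z => Real.cos z.re)
    (Real.continuous_cos.comp Complex.continuous_re).locallyIntegrable (by
      intro a b ha
      rw [rigid a b ha, setIntegral_congr_set (null hf hI)]
      exact fourier t1 t2 hCl.c_ne w1 w2 (hW2 ρ r r' c f U S hf hr hr' hCl)
        (hW3 ρ r r' c f U S hf hr hr' hCl) a b ha)
  have h2 : (fun z : ℂ => Real.cos z.re) = 0 :=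
    ((Real.continuous_cos.comp Complex.continuous_re).ae_eq_iff_eq volume continuous_zero).1 h1
  have h3 := congrFun h2 0
  simp at h3

end Pool.Agent.N596.SC
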